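import Pool.Agent.W523.LV.Stmts

/-!
# Nested intervals around a crossing point in an interval with many primes
-/

set_option autoImplicit false

open Finset

namespace Pool.Agent.W253.LV

/-- number of primes in `(l, r]` -/
def cnt (l r : ℕ) : ℕ := ((Ioc l r).filter Nat.Prime).card

theorem cnt_self (l : ℕ) : cnt l l = 0 := by simp [cnt]

theorem cnt_le (l r : ℕ) : cnt l r ≤ r - l := by
  unfold cnt
  refine (Finset.card_filter_le _ _).trans ?_
  rw [Nat.card_Ioc]

theorem cnt_le_real {l r : ℕ} (h : l ≤ r) : (cnt l r : ℝ) ≤ (r : ℝ) - l := by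
  have h1 : (cnt l r : ℝ) ≤ ((r - l : ℕ) : ℝ) := by exact_mod_cast cnt_le l r
  rwa [Nat.cast_sub h] at h1

theorem cnt_add {a b c : ℕ} (h1 : a ≤ b) (h2 : b ≤ c) : cnt a b + cnt b c = cnt a c := by
  unfold cnt
  rw [← Finset.card_union_of_disjoint, ← Finset.filter_union, Finset.Ioc_union_Ioc_eq_Ioc h1 h2]
  rw [Finset.disjoint_left]
  intro x hx hx'
  rw [Finset.mem_filter, Finset.mem_Ioc] at hx hx'
  omega

theorem cnt_succ (l r : ℕ) : cnt l (r + 1) ≤ cnt l r + 1 := by
  rcases le_or_gt l r with h | h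
  · rw [← cnt_add h (Nat.le_add_right r 1)]
    have := cnt_le r (r + 1)
    omega
  · have := cnt_le l (r + 1)
    omega

theorem ivt (l d t : ℕ) (h : t ≤ cnt l (l + d)) : ∃ m, l ≤ m ∧ m ≤ l + d ∧ cnt l m = t := by
  induction d with
  | zero =>
    rw [Nat.add_zero, cnt_self] at h
    exact ⟨l, le_rfl, le_rfl, by rw [cnt_self]; omega⟩
  | succ d ih =>
    by_cases ht : t ≤ cnt l (l + d)
    · obtain ⟨m, h1, h2, h3⟩ := ih ht
      exact ⟨m, h1, by omega, h3⟩
    · have h1 := cnt_succ l (l + d)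
      refine ⟨l + (d + 1), by omega, le_rfl, ?_⟩
      have h2 : l + (d + 1) = l + d + 1 := rfl
      rw [h2] at h ⊢
      omega

theorem ivt' {l r t : ℕ} (hlr : l ≤ r) (h : t ≤ cnt l r) : ∃ m, l ≤ m ∧ m ≤ r ∧ cnt l m = t := by
  obtain ⟨d, rfl⟩ := Nat.exists_eq_add_of_le hlr
  exact ivt l d t h

theorem lt_of_cnt_pos {l r : ℕ} (h : 0 < cnt l r) : l < r := by
  have := cnt_le l r
  omega

/-- a good partition with a crossing point -/
def Good (W D : ℝ) (l r : ℕ) : Prop := ∃ (L : ℕ) (b : ℕ → ℕ) (i₀ : ℕ), 0 < i₀ ∧ i₀ < L ∧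
  b 0 = l ∧ b L = r ∧ (∀ i, i < L → b i < b (i + 1)) ∧
  (∀ i, i < L → ((b (i + 1) : ℝ) - b i) ≤ D * (cnt (b i) (b (i + 1)) : ℝ)) ∧
  (∀ i, i < L → ((b (i + 1) : ℝ) - b i) ≤ W ∨ (((b (i + 1) : ℝ) - b i) ≤ D * |(b i : ℝ) - b i₀| ∧
    ((b (i + 1) : ℝ) - b i) ≤ D * |(b (i + 1) : ℝ) - b i₀|)) ∧
  (cnt l r : ℝ) ≤ 4 * ((b i₀ : ℝ) - l) ∧ (cnt l r : ℝ) ≤ 4 * ((r : ℝ) - b i₀)

/-- short intervals -/
theorem base {W D κ Λ : ℝ} {l r : ℕ} (hκ : 0 < κ) (hΛ : 0 < Λ) (hD : 4 * Λ ≤ κ * D)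
    (hN : 12 ≤ cnt l r) (hlen : κ * ((r : ℝ) - l) ≤ Λ * cnt l r) (hW : (r : ℝ) - l ≤ W) :
    Good W D l r := by
  have hlr : l < r := lt_of_cnt_pos (by omega)
  have hD0 : 0 ≤ D := by
    by_contra hcon
    push Not at hcon
    nlinarith
  obtain ⟨z, hz1, hz2, hz3⟩ := ivt' (t := cnt l r / 2) hlr.le (by omega)
  have hadd := cnt_add hz1 hz2
  have hlz : l < z := lt_of_cnt_pos (by omega)
  have hzr : z < r := lt_of_cnt_pos (l := z) (r := r) (by omega)
  have h4 : (cnt l r : ℝ) ≤ 4 * cnt l z := by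
    have : cnt l r ≤ 4 * cnt l z := by omega
    exact_mod_cast this
  have h5 : (cnt l r : ℝ) ≤ 4 * cnt z r := by
    have : cnt l r ≤ 4 * cnt z r := by omega
    exact_mod_cast this
  have hlz' : (l : ℝ) < z := by exact_mod_cast hlz
  have hzr' : (z : ℝ) < r := by exact_mod_cast hzr
  have hdens : ∀ m : ℝ, (cnt l r : ℝ) ≤ 4 * m → (r : ℝ) - l ≤ D * m := by
    intro m hm
    have h6 : κ * ((r : ℝ) - l) ≤ κ * (D * m) := by
      have h7 : Λ * (cnt l r : ℝ) ≤ Λ * (4 * m) := mul_le_mul_of_nonneg_left hm hΛ.le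
      have hm0 : 0 ≤ m := by
        have : (0 : ℝ) ≤ cnt l r := Nat.cast_nonneg _
        linarith
      have h8 : 4 * Λ * m ≤ κ * D * m := mul_le_mul_of_nonneg_right hD hm0
      nlinarith
    exact le_of_mul_le_mul_left h6 hκ
  refine ⟨2, fun i => if i = 0 then l else if i = 1 then z else r, 1, one_pos, one_lt_two, rfl,
    rfl, ?_, ?_, ?_, ?_, ?_⟩
  · intro i hi
    interval_cases i
    · exact hlz
    · exact hzr
  · intro i hi
    interval_cases i
    · show (z : ℝ) - l ≤ D * (cnt l z : ℝ)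
      have := hdens _ h4
      linarith
    · show (r : ℝ) - z ≤ D * (cnt z r : ℝ)
      have := hdens _ h5
      linarith
  · intro i hi
    interval_cases i
    · left
      show (z : ℝ) - l ≤ W
      linarith
    · left
      show (r : ℝ) - z ≤ W
      linarith
  · show (cnt l r : ℝ) ≤ 4 * ((z : ℝ) - l)
    have := cnt_le_real hz1
    linarith
  · show (cnt l r : ℝ) ≤ 4 * ((r : ℝ) - z)
    have := cnt_le_real hz2
    linarith

/-- pigeonhole -/
theorem pigeon {l r h m : ℕ} (hlr : l ≤ r) (hm : r ≤ l + m * h) (hm0 : 0 < m) :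
    ∃ l' r', l ≤ l' ∧ l' ≤ r' ∧ r' ≤ r ∧ r' ≤ l' + h ∧ cnt l r ≤ m * cnt l' r' := by
  set p : ℕ → ℕ := fun i => min (l + i * h) r with hp
  have hp0 : p 0 = l := by simp [hp, hlr]
  have hpm : p m = r := by simp only [hp]; omega
  have hmono : ∀ i, p i ≤ p (i + 1) := by
    intro i
    simp only [hp]
    have : l + i * h ≤ l + (i + 1) * h := by nlinarith
    omega
  have hsum : ∀ k, ∑ i ∈ range k, cnt (p i) (p (i + 1)) = cnt (p 0) (p k) := by
    intro k
    induction k with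
    | zero => simp [cnt_self]
    | succ k ih =>
      rw [Finset.sum_range_succ, ih]
      refine cnt_add ?_ (hmono k)
      exact monotone_nat_of_le_succ hmono (Nat.zero_le k)
  have hex : ∃ i ∈ range m, cnt l r ≤ m * cnt (p i) (p (i + 1)) := by
    by_contra hcon
    push Not at hcon
    have h1 : ∑ i ∈ range m, m * cnt (p i) (p (i + 1)) < ∑ _i ∈ range m, cnt l r :=
      Finset.sum_lt_sum_of_nonempty ⟨0, Finset.mem_range.2 hm0⟩ hcon
    rw [← Finset.mul_sum, hsum m, hp0, hpm, Finset.sum_const, Finset.card_range,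
      smul_eq_mul] at h1
    exact lt_irrefl _ h1
  obtain ⟨i, -, hi⟩ := hex
  refine ⟨p i, p (i + 1), ?_, hmono i, ?_, ?_, hi⟩
  · simp only [hp]
    have : 0 ≤ i * h := Nat.zero_le _
    omega
  · simp only [hp]
    exact min_le_right _ _
  · simp only [hp]
    have : l + (i + 1) * h = l + i * h + h := by ring
    omega

/-- extension of a good partition of a part -/
theorem extend {W D κ Λ T : ℝ} {l r l' r' : ℕ} (hκ : 0 < κ) (hΛ : 0 < Λ) (hT : 1 ≤ T)
    (hD1 : 1 ≤ D) (hD : 32 * T * Λ ≤ κ * D) (hlen : κ * ((r : ℝ) - l) ≤ Λ * cnt l r)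
    (hl : l < l') (hr : r' < r) (hlr : l' < r')
    (hq1 : (cnt l r : ℝ) ≤ 4 * cnt l l') (hq2 : (cnt l r : ℝ) ≤ 4 * cnt r' r)
    (hN' : (cnt l r : ℝ) ≤ 8 * T * cnt l' r') (hG : Good W D l' r') : Good W D l r := by
  obtain ⟨L, b, i₀, hi0, hiL, hb0, hbL, hmono, hden, hfar, hE1, hE2⟩ := hG
  have hll : (l : ℝ) < l' := by exact_mod_cast hl
  have hrr : (r' : ℝ) < r := by exact_mod_cast hr
  have hlr' : (l' : ℝ) < r' := by exact_mod_cast hlr
  have hc0 : (0 : ℝ) ≤ cnt l' r' := Nat.cast_nonneg _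
  have hz1 : (l' : ℝ) ≤ b i₀ := by linarith
  have hz2 : (b i₀ : ℝ) ≤ r' := by linarith
  have hdens : ∀ m : ℝ, (cnt l r : ℝ) ≤ 4 * m → (r : ℝ) - l ≤ D * m := by
    intro m hm
    have hm0 : 0 ≤ m := by
      have : (0 : ℝ) ≤ cnt l r := Nat.cast_nonneg _
      linarith
    have h6 : κ * ((r : ℝ) - l) ≤ κ * (D * m) := by
      have h7 : Λ * (cnt l r : ℝ) ≤ Λ * (4 * m) := mul_le_mul_of_nonneg_left hm hΛ.le
      have h8 : 32 * T * Λ * m ≤ κ * D * m := mul_le_mul_of_nonneg_right hD hm0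
      have h9 : 4 * (Λ * m) ≤ 32 * T * (Λ * m) :=
        mul_le_mul_of_nonneg_right (by linarith) (by positivity)
      nlinarith
    exact le_of_mul_le_mul_left h6 hκ
  have hdist : ∀ m : ℝ, (cnt l' r' : ℝ) ≤ 4 * m → (r : ℝ) - l ≤ D * m := by
    intro m hm
    have hm0 : 0 ≤ m := by linarith
    have h6 : κ * ((r : ℝ) - l) ≤ κ * (D * m) := by
      have h7 : Λ * (cnt l r : ℝ) ≤ Λ * (8 * T * cnt l' r') :=
        mul_le_mul_of_nonneg_left hN' hΛ.le
      have h8 : 32 * T * Λ * m ≤ κ * D * m := mul_le_mul_of_nonneg_right hD hm0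
      have h9 : Λ * (8 * T * cnt l' r') ≤ Λ * (8 * T * (4 * m)) :=
        mul_le_mul_of_nonneg_left (mul_le_mul_of_nonneg_left hm (by positivity)) hΛ.le
      nlinarith
    exact le_of_mul_le_mul_left h6 hκ
  set B : ℕ → ℕ := fun i => if i = 0 then l else if i ≤ L + 1 then b (i - 1) else r with hB
  have hB0 : B 0 = l := by simp [hB]
  have hBs : ∀ i, i ≤ L → B (i + 1) = b i := by
    intro i hi
    simp only [hB]
    rw [if_neg (Nat.succ_ne_zero i), if_pos (by omega), Nat.add_sub_cancel]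
  have hBr : B (L + 2) = r := by
    simp only [hB]
    rw [if_neg (by omega), if_neg (by omega)]
  have hcases : ∀ i, i < L + 2 → i = 0 ∨ (∃ j, j < L ∧ i = j + 1) ∨ i = L + 1 := by
    intro i hi
    rcases Nat.eq_zero_or_pos i with h | h
    · exact Or.inl h
    · rcases Nat.lt_or_ge i (L + 1) with h2 | h2
      · exact Or.inr (Or.inl ⟨i - 1, by omega, by omega⟩)
      · exact Or.inr (Or.inr (by omega))
  have hBz : B (i₀ + 1) = b i₀ := hBs i₀ hiL.le
  refine ⟨L + 2, B, i₀ + 1, by omega, by omega, hB0, hBr, ?_, ?_, ?_, ?_, ?_⟩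
  · intro i hi
    rcases hcases i hi with rfl | ⟨j, hj, rfl⟩ | rfl
    · rw [hB0, hBs 0 (by omega), hb0]
      exact hl
    · rw [hBs j hj.le, hBs (j + 1) (by omega)]
      exact hmono j hj
    · rw [hBs L le_rfl, hbL, show L + 1 + 1 = L + 2 from rfl, hBr]
      exact hr
  · intro i hi
    rcases hcases i hi with rfl | ⟨j, hj, rfl⟩ | rfl
    · rw [hB0, hBs 0 (by omega), hb0]
      have := hdens _ hq1
      linarith
    · rw [hBs j hj.le, hBs (j + 1) (by omega)]
      exact hden j hj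
    · rw [hBs L le_rfl, hbL, show L + 1 + 1 = L + 2 from rfl, hBr]
      have := hdens _ hq2
      linarith
  · intro i hi
    rw [hBz]
    rcases hcases i hi with rfl | ⟨j, hj, rfl⟩ | rfl
    · rw [hB0, hBs 0 (by omega), hb0]
      right
      constructor
      · rw [abs_sub_comm, abs_of_nonneg (by linarith)]
        nlinarith
      · rw [abs_sub_comm, abs_of_nonneg (by linarith)]
        have := hdist _ hE1
        linarith
    · rw [hBs j hj.le, hBs (j + 1) (by omega)]
      exact hfar j hj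
    · rw [hBs L le_rfl, hbL, show L + 1 + 1 = L + 2 from rfl, hBr]
      right
      constructor
      · rw [abs_of_nonneg (by linarith)]
        have := hdist _ hE2
        linarith
      · rw [abs_of_nonneg (by linarith)]
        nlinarith
  · rw [hBz]
    have := cnt_le_real hl.le
    linarith
  · rw [hBz]
    have := cnt_le_real hr.le
    linarith

/-- one step of the recursion -/
theorem main {W D κ Λ T : ℝ} (hκ : 0 < κ) (hΛ : 0 < Λ) (hT : 1 ≤ T) (hWT : T ≤ W)
    (hD1 : 1 ≤ D) (hD : 32 * T * Λ ≤ κ * D) (hW : 96 * T * Λ ≤ κ * W) (k : ℕ) :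
    ∀ l r : ℕ, 12 ≤ cnt l r → (r : ℝ) - l ≤ W * (T / 2) ^ k →
      κ * 16 ^ k * ((r : ℝ) - l) ≤ Λ * cnt l r → Good W D l r := by
  induction k with
  | zero =>
    intro l r hN hlen hk
    rw [pow_zero, mul_one] at hlen hk
    refine base hκ hΛ ?_ hN hk hlen
    nlinarith
  | succ k ih =>
    intro l r hN hlen hk
    have h16 : (1 : ℝ) ≤ 16 ^ (k + 1) := one_le_pow₀ (by norm_num)
    have hκ' : κ ≤ κ * 16 ^ (k + 1) := le_mul_of_one_le_right hκ.le h16
    have hκ0 : 0 < κ * 16 ^ (k + 1) := by positivity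
    have hD' : 32 * T * Λ ≤ κ * 16 ^ (k + 1) * D :=
      hD.trans (mul_le_mul_of_nonneg_right hκ' (by linarith))
    by_cases hsmall : (r : ℝ) - l ≤ W
    · refine base hκ0 hΛ ?_ hN hk hsmall
      nlinarith
    · push Not at hsmall
      have hlr : l < r := lt_of_cnt_pos (by omega)
      obtain ⟨l1, hl1, hl2, hl3⟩ := ivt' (t := cnt l r / 3) hlr.le (by omega)
      have hadd1 := cnt_add hl1 hl2
      obtain ⟨r1, hr1, hr2, hr3⟩ := ivt' (l := l1) (r := r) (t := cnt l r / 3) hl2 (by omega)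
      have hadd2 := cnt_add hr1 hr2
      set h : ℕ := ⌈((r : ℝ) - l) / T⌉₊ with hh
      set m : ℕ := ⌊T⌋₊ + 1 with hm
      have hT0 : 0 < T := by linarith
      have hh1 : ((r : ℝ) - l) / T ≤ h := Nat.le_ceil _
      have hlen0 : 0 < (r : ℝ) - l := by linarith
      have hh2 : (h : ℝ) ≤ 2 * (((r : ℝ) - l) / T) := by
        have h1 : (h : ℝ) < ((r : ℝ) - l) / T + 1 := Nat.ceil_lt_add_one (by positivity)
        have h2 : 1 ≤ ((r : ℝ) - l) / T := by
          rw [le_div_iff₀ hT0]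
          linarith
        linarith
      have hm1 : T < m := by
        rw [hm]
        push_cast
        exact Nat.lt_floor_add_one T
      have hm2 : (m : ℝ) ≤ 2 * T := by
        rw [hm]
        push_cast
        have := Nat.floor_le hT0.le
        linarith
      have hcover : r1 ≤ l1 + m * h := by
        have h1 : (r : ℝ) - l ≤ m * h := by
          have h2 : T * (((r : ℝ) - l) / T) ≤ m * h :=
            mul_le_mul hm1.le hh1 (by positivity) (by positivity)
          rwa [mul_div_cancel₀ _ hT0.ne'] at h2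
        have h3 : (r : ℝ) ≤ ((l + m * h : ℕ) : ℝ) := by
          push_cast
          linarith
        have h4 : r ≤ l + m * h := by exact_mod_cast h3
        omega
      obtain ⟨l', r', h1, h2, h3, h4, h5⟩ := pigeon hr1 hcover (by omega)
      rw [hr3] at h5
      -- the number of primes in the part
      have hN4 : (cnt l r : ℝ) ≤ 4 * ((cnt l r / 3 : ℕ) : ℝ) := by
        have : cnt l r ≤ 4 * (cnt l r / 3) := by omega
        exact_mod_cast this
      have h5' : ((cnt l r / 3 : ℕ) : ℝ) ≤ m * cnt l' r' := by exact_mod_cast h5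
      have hcpos : (0 : ℝ) ≤ cnt l' r' := Nat.cast_nonneg _
      have hN' : (cnt l r : ℝ) ≤ 8 * T * cnt l' r' := by
        have h6 : (m : ℝ) * cnt l' r' ≤ 2 * T * cnt l' r' :=
          mul_le_mul_of_nonneg_right hm2 hcpos
        linarith
      have hN12 : 12 ≤ cnt l' r' := by
        have h6 : κ * W ≤ Λ * cnt l r := by
          refine le_trans ?_ hk
          exact mul_le_mul hκ' hsmall.le (by linarith) hκ0.le
        have h7 : 96 * T * Λ ≤ 8 * T * Λ * cnt l' r' := by
          have h8 : Λ * (cnt l r : ℝ) ≤ Λ * (8 * T * cnt l' r') :=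
            mul_le_mul_of_nonneg_left hN' hΛ.le
          nlinarith
        have h9 : (12 : ℝ) ≤ cnt l' r' := by
          have h10 : 8 * T * Λ * 12 ≤ 8 * T * Λ * cnt l' r' := by linarith
          exact le_of_mul_le_mul_left h10 (by positivity)
        exact_mod_cast h9
      have hlr' : l' < r' := lt_of_cnt_pos (by omega)
      have hll : l < l' := lt_of_lt_of_le (lt_of_cnt_pos (l := l) (r := l1) (by omega)) h1
      have hrr : r' < r := lt_of_le_of_lt h3 (lt_of_cnt_pos (l := r1) (r := r) (by omega))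
      have hc1 := cnt_add hl1 h1
      have hc2 := cnt_add h3 hr2
      have hlen' : (r' : ℝ) - l' ≤ 2 * (((r : ℝ) - l) / T) := by
        have h6 : (r' : ℝ) ≤ ((l' + h : ℕ) : ℝ) := by exact_mod_cast h4
        push_cast at h6
        linarith
      refine extend hκ0 hΛ hT hD1 hD' hk hll hrr hlr' ?_ ?_ hN' (ih l' r' hN12 ?_ ?_)
      · have : cnt l r ≤ 4 * cnt l l' := by omega
        exact_mod_cast this
      · have : cnt l r ≤ 4 * cnt r' r := by omega
        exact_mod_cast this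
      · refine hlen'.trans ?_
        have h6 : 2 * (((r : ℝ) - l) / T) = ((r : ℝ) - l) * (2 / T) := by ring
        rw [h6]
        calc ((r : ℝ) - l) * (2 / T) ≤ W * (T / 2) ^ (k + 1) * (2 / T) :=
              mul_le_mul_of_nonneg_right hlen (by positivity)
          _ = W * (T / 2) ^ k := by
              rw [pow_succ]
              field_simp
      · have h6 : κ * 16 ^ k * ((r' : ℝ) - l') ≤ κ * 16 ^ k * (2 * (((r : ℝ) - l) / T)) :=
          mul_le_mul_of_nonneg_left hlen' (by positivity)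
        have h7 : Λ * (cnt l r : ℝ) ≤ Λ * (8 * T * cnt l' r') :=
          mul_le_mul_of_nonneg_left hN' hΛ.le
        have h8 : κ * 16 ^ k * (2 * (((r : ℝ) - l) / T)) * (8 * T) =
            κ * 16 ^ (k + 1) * ((r : ℝ) - l) := by
          rw [pow_succ]
          field_simp
          ring
        have h9 : κ * 16 ^ k * (2 * (((r : ℝ) - l) / T)) * (8 * T) ≤
            Λ * cnt l' r' * (8 * T) := by
          rw [h8]
          linarith
        exact h6.trans (le_of_mul_le_mul_right h9 (by positivity))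

theorem taskNest : Pool.Agent.W523.LV.TaskNest := by
  intro η c hη hη1 hc
  obtain ⟨K, hK⟩ := exists_nat_ge (4 / η)
  set κ : ℝ := c / 16 ^ K with hκdef
  have hκ : 0 < κ := by positivity
  have hev1 : ∀ᶠ x : ℝ in Filter.atTop, Real.log x ≤ κ / 96 * x ^ (η / 2) := by
    have h1 := (isLittleO_log_rpow_atTop (show 0 < η / 2 by positivity)).def
      (show 0 < κ / 96 by positivity)
    filter_upwards [h1, Filter.eventually_ge_atTop 1] with x hx hx1
    rw [Real.norm_of_nonneg (Real.log_nonneg hx1),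
      Real.norm_of_nonneg (Real.rpow_nonneg (by linarith) _)] at hx
    exact hx
  have hev2 : ∀ᶠ x : ℝ in Filter.atTop, 2 ≤ x ^ (η / 4) :=
    (tendsto_rpow_atTop (show 0 < η / 4 by positivity)).eventually_ge_atTop 2
  obtain ⟨x₀, hx₀⟩ := Filter.eventually_atTop.1 (hev1.and hev2)
  obtain ⟨X₀, hX₀⟩ := exists_nat_ge (max x₀ 3)
  refine ⟨X₀, ?_⟩
  intro X Y hX hY1 hY2 hcnt
  have hXr : (X₀ : ℝ) ≤ X := by exact_mod_cast hX
  have hXx : x₀ ≤ X := (le_max_left _ _).trans (hX₀.trans hXr)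
  have hX3 : (3 : ℝ) ≤ X := (le_max_right _ _).trans (hX₀.trans hXr)
  obtain ⟨hlog, htwo⟩ := hx₀ X hXx
  have hX1 : (1 : ℝ) ≤ X := by linarith
  have hX0 : (0 : ℝ) < X := by linarith
  set Λ : ℝ := Real.log X with hΛdef
  have hΛ : 0 < Λ := Real.log_pos (by linarith)
  set T : ℝ := (X : ℝ) ^ (η / 2) with hTdef
  set D : ℝ := (X : ℝ) ^ η with hDdef
  set W : ℝ := (X : ℝ) ^ (2 / 5 : ℝ) with hWdef
  have hT1 : 1 ≤ T := Real.one_le_rpow hX1 (by positivity)
  have hD1 : 1 ≤ D := Real.one_le_rpow hX1 hη.le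
  have hWT : T ≤ W := Real.rpow_le_rpow_of_exponent_le hX1 (by linarith)
  have hTT : T * T = D := by
    rw [hTdef, hDdef, ← Real.rpow_add hX0]
    congr 1
    ring
  have hTW : T * T ≤ W := by
    rw [hTT]
    exact Real.rpow_le_rpow_of_exponent_le hX1 (by linarith)
  have h96 : 96 * Λ ≤ κ * T := by linarith
  have hD : 32 * T * Λ ≤ κ * D := by
    rw [← hTT]
    nlinarith
  have hW : 96 * T * Λ ≤ κ * W := by
    have h1 : 96 * T * Λ ≤ κ * (T * T) := by nlinarith
    exact h1.trans (mul_le_mul_of_nonneg_left hTW hκ.le)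
  have hlog' : c * Y ≤ Λ * (cnt X (X + Y) : ℝ) := by
    have h1 : c * Y / Λ ≤ (cnt X (X + Y) : ℝ) := hcnt
    rw [div_le_iff₀ hΛ] at h1
    linarith
  have hκK : κ * 16 ^ K = c := by
    rw [hκdef]
    field_simp
  have hκc : κ ≤ c := by
    rw [← hκK]
    exact le_mul_of_one_le_right hκ.le (one_le_pow₀ (by norm_num))
  have hWY : W ≤ Y := (Real.rpow_le_rpow_of_exponent_le hX1 (by norm_num)).trans hY1
  have hN : 12 ≤ cnt X (X + Y) := by
    have h1 : 96 * Λ ≤ Λ * (cnt X (X + Y) : ℝ) := by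
      have h2 : κ * W ≤ c * Y := mul_le_mul hκc hWY (by linarith) hc.le
      have h3 : 96 * Λ ≤ 96 * T * Λ := by nlinarith
      linarith
    have h2 : (96 : ℝ) ≤ cnt X (X + Y) := by nlinarith
    have h3 : 96 ≤ cnt X (X + Y) := by exact_mod_cast h2
    omega
  have hlen : ((X + Y : ℕ) : ℝ) - X = Y := by push_cast; ring
  have hpow : (Y : ℝ) ≤ W * (T / 2) ^ K := by
    have h1 : (X : ℝ) ^ (η / 4) ≤ T / 2 := by
      have h2 : T = (X : ℝ) ^ (η / 4) * (X : ℝ) ^ (η / 4) := by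
        rw [hTdef, ← Real.rpow_add hX0]
        congr 1
        ring
      rw [h2]
      have h3 : 0 < (X : ℝ) ^ (η / 4) := by positivity
      nlinarith
    have h2 : (X : ℝ) ≤ (T / 2) ^ K := by
      have h3 : (X : ℝ) ≤ ((X : ℝ) ^ (η / 4)) ^ K := by
        rw [← Real.rpow_natCast, ← Real.rpow_mul hX0.le]
        nth_rewrite 1 [← Real.rpow_one (X : ℝ)]
        refine Real.rpow_le_rpow_of_exponent_le hX1 ?_
        rw [div_le_iff₀ hη] at hK
        linarith
      exact h3.trans (pow_le_pow_left₀ (by positivity) h1 K)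
    have hY2' : (Y : ℝ) ≤ X := by exact_mod_cast hY2
    have hW1 : 1 ≤ W := hT1.trans hWT
    have h3 : (T / 2) ^ K ≤ W * (T / 2) ^ K := le_mul_of_one_le_left (by positivity) hW1
    linarith
  obtain ⟨L, b, i₀, hi0, hiL, hb0, hbL, hmono, hden, hfar, hE1, hE2⟩ :=
    main hκ hΛ hT1 hWT hD1 hD hW K X (X + Y) hN (by rw [hlen]; exact hpow)
      (by rw [hlen, hκK]; exact hlog')
  have hfin : ∀ m : ℝ, (cnt X (X + Y) : ℝ) ≤ 4 * m → (Y : ℝ) ≤ D * m := by
    intro m hm
    have hm0 : 0 ≤ m := by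
      have : (0 : ℝ) ≤ cnt X (X + Y) := Nat.cast_nonneg _
      linarith
    have h1 : c * Y ≤ Λ * (4 * m) := hlog'.trans (mul_le_mul_of_nonneg_left hm hΛ.le)
    have h2 : 4 * Λ ≤ c * D := by
      have h3 : κ * D ≤ c * D := mul_le_mul_of_nonneg_right hκc (by linarith)
      nlinarith
    have h4 : 4 * Λ * m ≤ c * D * m := mul_le_mul_of_nonneg_right h2 hm0
    have h5 : c * Y ≤ c * (D * m) := by linarith
    exact le_of_mul_le_mul_left h5 hc
  refine ⟨L, b, i₀, hi0, hiL, hb0, hbL, hmono, hden, hfar, hfin _ hE1, ?_⟩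
  have h1 := hfin _ hE2
  push_cast at h1
  exact h1

end Pool.Agent.W253.LV
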